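import Pool.Agent.Helper17.OD.GoalsMA

/-! Packet CLA of the project OD. -/

open Set

universe u v

namespace Pool.Agent.Helper17.OD

namespace PkCLA

theorem leaves_fst {L : Type u} (t : Tr L) : t.fst.leaves ⊆ t.leaves := by
  cases t with
  | nat n => exact fun x hx => hx
  | ord b => exact fun x hx => hx.elim
  | pr s t => exact subset_union_left

theorem leaves_snd {L : Type u} (t : Tr L) : t.snd.leaves ⊆ t.leaves := by
  cases t with
  | nat n => exact fun x hx => hx
  | ord b => exact fun x hx => hx.elim
  | pr s t => exact subset_union_right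

theorem tcl_sub {a : O} {Q : Code → T → Prop} {A : Set O} {t : T} (h : TCl a Q A t) :
    t ∈ D (Iio a) := by
  induction h with
  | nat n => exact fun x hx => hx.elim
  | base hx hxa =>
    intro y hy
    have : y = _ := hy
    rw [this]
    exact hxa
  | pr _ _ ih1 ih2 => exact union_subset ih1 ih2
  | fst _ ih => exact (leaves_fst _).trans ih
  | snd _ ih => exact (leaves_snd _).trans ih
  | inner _ hb _ _ hw _ _ => exact fun y hy => lt_trans (hw.1 hy) hb
  | top _ _ hw _ => exact hw.1

theorem tcl_iff {a : O} {Q : Code → T → Prop} {A : Set O} (t : T) :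
    TCl a Q A t ↔ t ∈ D (Hull a Q A) := by
  induction t with
  | nat n => exact ⟨fun _ x hx => hx.elim, fun _ => TCl.nat n⟩
  | ord b =>
    refine ⟨fun h x hx => ?_, fun h => h rfl⟩
    have : x = b := hx
    rw [this]
    exact h
  | pr s t ih1 ih2 =>
    constructor
    · intro h
      exact union_subset (ih1.1 h.fst) (ih2.1 h.snd)
    · intro h
      exact TCl.pr (ih1.2 (subset_union_left.trans h)) (ih2.2 (subset_union_right.trans h))

theorem thm : G_CLA := by
  intro a Q A
  exact ⟨tcl_iff, fun x hx => tcl_sub hx rfl, fun x hx hxa => TCl.base hx hxa⟩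

end PkCLA

end Pool.Agent.Helper17.OD
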