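import Pool.Agent.Helper29.OD.CLB

/-! Packet CLC of the project OD. -/

open Set

universe u v

namespace Pool.Agent.Helper17.OD

namespace PkCLC

theorem thm : G_CLC := by
  intro a ι r Q A hne hdir hmono t ht
  have hm : ∀ i j, r i j → ∀ t, TCl a (Q i) (A i) t → TCl a (Q j) (A j) t :=
    fun i j hij t h => PkCLB.mono (hmono i j hij).1 (hmono i j hij).2 h
  induction ht with
  | nat n => exact ⟨hne.some, TCl.nat n⟩
  | base hx hxa =>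
    obtain ⟨i, hi⟩ := mem_iUnion.1 hx
    exact ⟨i, TCl.base hi hxa⟩
  | pr _ _ ih1 ih2 =>
    obtain ⟨i, hi⟩ := ih1
    obtain ⟨j, hj⟩ := ih2
    obtain ⟨k, hik, hjk⟩ := hdir i j
    exact ⟨k, TCl.pr (hm _ _ hik _ hi) (hm _ _ hjk _ hj)⟩
  | fst _ ih =>
    obtain ⟨i, hi⟩ := ih
    exact ⟨i, hi.fst⟩
  | snd _ ih =>
    obtain ⟨i, hi⟩ := ih
    exact ⟨i, hi.snd⟩
  | inner _ hb _ he hw ih1 ih2 =>
    obtain ⟨i, hi⟩ := ih1
    obtain ⟨j, hj⟩ := ih2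
    obtain ⟨k, hik, hjk⟩ := hdir i j
    exact ⟨k, TCl.inner (hm _ _ hik _ hi) hb (hm _ _ hjk _ hj) he hw⟩
  | top _ hq hw ih =>
    obtain ⟨i, hi⟩ := ih
    obtain ⟨j, hj⟩ := hq
    obtain ⟨k, hik, hjk⟩ := hdir i j
    exact ⟨k, TCl.top (hm _ _ hik _ hi) ((hmono _ _ hjk).1 _ _ hj) hw⟩

end PkCLC

end Pool.Agent.Helper17.OD
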