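import Pool.Agent.Helper29.OD.CLA

/-! Packet CLD of the project OD. -/

open Set

universe u v

namespace Pool.Agent.Helper17.OD

namespace PkCLD

theorem isW_unique (hL : G_LTO.{2}) {a : O} {φ : Code} {e x y : T} (hx : IsW a φ e x)
    (hy : IsW a φ e y) : x = y := by
  rcases (hL O).2.2 x y with h | h | h
  · exact absurd h (hy.2.2 x hx.1 hx.2.1)
  · exact h
  · exact absurd h (hx.2.2 y hy.1 hy.2.1)

theorem thm (hL : G_LTO.{2}) : G_CLD := by
  intro a Q A φ₀ e₀
  classical
  by_cases hex : ∃ x, IsW a φ₀ e₀ x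
  · obtain ⟨x₀, hx₀⟩ := hex
    refine ⟨x₀, hx₀.1, fun t ht => ?_⟩
    induction ht with
    | nat n => exact TCl.nat n
    | base hx hxa => exact TCl.base (Or.inl hx) hxa
    | pr _ _ ih1 ih2 => exact TCl.pr ih1 ih2
    | fst _ ih => exact ih.fst
    | snd _ ih => exact ih.snd
    | inner _ hb _ he hw ih1 ih2 => exact TCl.inner ih1 hb ih2 he hw
    | top _ hq hw ih =>
      rcases hq with hq | ⟨rfl, rfl⟩
      · exact TCl.top ih hq hw
      · rw [isW_unique hL hw hx₀]
        rw [PkCLA.tcl_iff]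
        intro y hy
        exact TCl.base (Or.inr hy) (hx₀.1 hy)
  · refine ⟨.nat 0, fun x hx => hx.elim, fun t ht => ?_⟩
    induction ht with
    | nat n => exact TCl.nat n
    | base hx hxa => exact TCl.base (Or.inl hx) hxa
    | pr _ _ ih1 ih2 => exact TCl.pr ih1 ih2
    | fst _ ih => exact ih.fst
    | snd _ ih => exact ih.snd
    | inner _ hb _ he hw ih1 ih2 => exact TCl.inner ih1 hb ih2 he hw
    | top _ hq hw ih =>
      rcases hq with hq | ⟨rfl, rfl⟩
      · exact TCl.top ih hq hw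
      · exact absurd ⟨_, hw⟩ hex

end PkCLD

end Pool.Agent.Helper17.OD
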