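import Pool.Agent.Helper29.OD.CLA

/-! Packet CLE of the project OD. -/

open Set

universe u v

namespace Pool.Agent.Helper17.OD

namespace PkCLE

/-- the trees with leaves in the hull and `a` -/
theorem thm : G_CLE := by
  intro a Q Q' A hQ hQ'
  have key : ∀ t, TCl (Order.succ a) Q' A t → t ∈ D (Hull a Q A ∪ {a}) := by
    intro t ht
    induction ht with
    | nat n => exact fun x hx => hx.elim
    | @base x hx hxa =>
      intro y hy
      have : y = x := hy
      rw [this]
      rcases lt_or_eq_of_le (Order.lt_succ_iff.1 hxa) with h | h
      · exact Or.inl (TCl.base hx h)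
      · exact Or.inr h
    | pr _ _ ih1 ih2 => exact union_subset ih1 ih2
    | fst _ ih => exact (PkCLA.leaves_fst _).trans ih
    | snd _ ih => exact (PkCLA.leaves_snd _).trans ih
    | @inner b φ e x _ hb _ he hw ih1 ih2 =>
      have hba : b ≤ a := Order.lt_succ_iff.1 hb
      have hel : TCl a Q A e := by
        rw [PkCLA.tcl_iff]
        intro y hy
        rcases ih2 hy with h | h
        · exact h
        · have h1 : y < b := he hy
          have h2 : y = a := h
          rw [h2] at h1
          exact absurd h1 (not_lt.2 hba)
      have hx : TCl a Q A x := by
        rcases lt_or_eq_of_le hba with h | h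
        · have hbl : TCl a Q A (.ord b) := by
            rcases ih1 (show b ∈ (Tr.ord b : T).leaves from rfl) with h' | h'
            · exact h'
            · have h2 : b = a := h'
              exact absurd h2 h.ne
          exact TCl.inner hbl h hel he hw
        · subst h
          exact TCl.top hel (hQ _ _) hw
      exact ((PkCLA.tcl_iff x).1 hx).trans subset_union_left
    | top _ hq _ _ => exact absurd hq (hQ' _ _)
  intro x hx
  exact key _ hx rfl

end PkCLE

end Pool.Agent.Helper17.OD
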