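import Pool.Agent.Helper29.OD.CLB

/-! Packet CLF of the project OD. -/

open Set

universe u v

namespace Pool.Agent.Helper17.OD

namespace PkCLF

theorem thm : G_CLF := by
  intro a Q A B t ht
  have hm : ∀ (d d' : T) (t : T), d.leaves ⊆ d'.leaves → TCl a Q (d.leaves ∪ B) t →
      TCl a Q (d'.leaves ∪ B) t :=
    fun d d' t hd h => PkCLB.mono (fun _ _ h => h) (union_subset_union_left _ hd) h
  induction ht with
  | nat n => exact ⟨.nat 0, fun x hx => hx.elim, TCl.nat n⟩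
  | @base x hx hxa =>
    rcases hx with hx | hx
    · refine ⟨.ord x, fun y hy => ?_, TCl.base (Or.inl rfl) hxa⟩
      have : y = x := hy
      rw [this]
      exact hx
    · exact ⟨.nat 0, fun x hx => hx.elim, TCl.base (Or.inr hx) hxa⟩
  | pr _ _ ih1 ih2 =>
    obtain ⟨d1, hd1, h1⟩ := ih1
    obtain ⟨d2, hd2, h2⟩ := ih2
    exact ⟨.pr d1 d2, union_subset hd1 hd2, TCl.pr (hm d1 (.pr d1 d2) _ subset_union_left h1)
      (hm d2 (.pr d1 d2) _ subset_union_right h2)⟩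
  | fst _ ih =>
    obtain ⟨d, hd, h⟩ := ih
    exact ⟨d, hd, h.fst⟩
  | snd _ ih =>
    obtain ⟨d, hd, h⟩ := ih
    exact ⟨d, hd, h.snd⟩
  | inner _ hb _ he hw ih1 ih2 =>
    obtain ⟨d1, hd1, h1⟩ := ih1
    obtain ⟨d2, hd2, h2⟩ := ih2
    exact ⟨.pr d1 d2, union_subset hd1 hd2, TCl.inner (hm d1 (.pr d1 d2) _ subset_union_left h1) hb
      (hm d2 (.pr d1 d2) _ subset_union_right h2) he hw⟩
  | top _ hq hw ih =>
    obtain ⟨d, hd, h⟩ := ih
    exact ⟨d, hd, TCl.top h hq hw⟩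

end PkCLF

end Pool.Agent.Helper17.OD
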