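import Pool.Agent.Helper17.OD.GoalsMA

/-! Packet CLL of the project OD. -/

open Set

universe u v

namespace Pool.Agent.Helper17.OD

namespace PkCLL

theorem thm : G_CLL := by
  intro a ha Q A t hQ ht
  have hlim : ∀ b < a, Order.succ b < a := fun b hb => ha.succ_lt hb
  induction ht with
  | nat n =>
    have h0 : (0 : O) < a := by
      rcases eq_or_ne a 0 with h | h
      · exact absurd (h ▸ isMin_bot) ha.1
      · exact pos_iff_ne_zero.2 h
    exact ⟨0, h0, fun c _ _ Q' => TCl.nat n⟩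
  | @base x hx hxa =>
    exact ⟨Order.succ x, hlim x hxa, fun c hc _ Q' =>
      TCl.base hx (lt_of_lt_of_le (Order.lt_succ x) hc)⟩
  | pr _ _ ih1 ih2 =>
    obtain ⟨b1, hb1, h1⟩ := ih1
    obtain ⟨b2, hb2, h2⟩ := ih2
    exact ⟨max b1 b2, max_lt hb1 hb2, fun c hc hca Q' =>
      TCl.pr (h1 c ((le_max_left _ _).trans hc) hca Q') (h2 c ((le_max_right _ _).trans hc) hca Q')⟩
  | fst _ ih =>
    obtain ⟨b1, hb1, h1⟩ := ih
    exact ⟨b1, hb1, fun c hc hca Q' => (h1 c hc hca Q').fst⟩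
  | snd _ ih =>
    obtain ⟨b1, hb1, h1⟩ := ih
    exact ⟨b1, hb1, fun c hc hca Q' => (h1 c hc hca Q').snd⟩
  | @inner b φ e x _ hb _ he hw ih1 ih2 =>
    obtain ⟨b1, hb1, h1⟩ := ih1
    obtain ⟨b2, hb2, h2⟩ := ih2
    refine ⟨max (max b1 b2) (Order.succ b), max_lt (max_lt hb1 hb2) (hlim b hb),
      fun c hc hca Q' => ?_⟩
    have hc1 : b1 ≤ c := ((le_max_left _ _).trans (le_max_left _ _)).trans hc
    have hc2 : b2 ≤ c := ((le_max_right _ _).trans (le_max_left _ _)).trans hc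
    have hc3 : b < c := lt_of_lt_of_le (Order.lt_succ b) ((le_max_right _ _).trans hc)
    exact TCl.inner (h1 c hc1 hca Q') hc3 (h2 c hc2 hca Q') he hw
  | top _ hq _ _ => exact absurd hq (hQ _ _)

end PkCLL

end Pool.Agent.Helper17.OD
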