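import Pool.Agent.Helper29.OD.CLA

/-! Packet CLB of the project OD. -/

open Set

universe u v

namespace Pool.Agent.Helper17.OD

namespace PkCLB

theorem thm : G_CLB := by
  intro a Q Q' A A' hQ hA t ht
  induction ht with
  | nat n => exact TCl.nat n
  | base hx hxa => exact hA _ hx hxa
  | pr _ _ ih1 ih2 => exact TCl.pr ih1 ih2
  | fst _ ih => exact ih.fst
  | snd _ ih => exact ih.snd
  | inner _ hb _ he hw ih1 ih2 => exact TCl.inner ih1 hb ih2 he hw
  | top he hq hw ih => exact TCl.top ih (hQ _ _ (PkCLA.tcl_sub he) hq) hw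

theorem mono {a : O} {Q Q' : Code → T → Prop} {A A' : Set O} (hQ : ∀ φ e, Q φ e → Q' φ e)
    (hA : A ⊆ A') {t : T} (ht : TCl a Q A t) : TCl a Q' A' t :=
  thm a Q Q' A A' (fun φ e _ => hQ φ e) (fun _ hx hxa => TCl.base (hA hx) hxa) t ht

end PkCLB

end Pool.Agent.Helper17.OD
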